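import Mathlib
import Pool.Agent.Helper22.OracleDefs

set_option autoImplicit false

/-!
# Affine oracles: multilinear extensions of Boolean functions over the fields `GF(2^(k+1))`
-/

namespace Pool.Agent.Helper6.Aff

open Pool.Agent.Helper22

/-- a family of Boolean functions, one of each arity `n` -/
abbrev Fam : Type := ∀ n : ℕ, (Fin n → Bool) → Bool

/-- The value at `x ∈ Rⁿ` of the multilinear extension of the Boolean function `f`. -/
def mle {R : Type} [CommRing R] {n : ℕ} (f : (Fin n → Bool) → Bool) (x : Fin n → R) : R :=
  ∑ v : Fin n → Bool, if f v = true then ∏ i, (if v i = true then x i else 1 - x i) else 0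

/-- the number of leading `true`s of a word -/
def lead (w : List Bool) : ℕ := (w.takeWhile id).length

/-- the word behind the leading `true`s and the `false` which follows them -/
def rest (w : List Bool) : List Bool := (w.dropWhile id).tail

/-- a choice of a basis of each field `GF(2^(k+1))` over `GF(2)` -/
abbrev Bases : Type := ∀ k : ℕ, Module.Basis (Fin (k + 1)) (ZMod 2) (GaloisField 2 (k + 1))

/-- the element number `j` of `GF(2^(k+1))` written in the word `r`: its coordinates are the
`k+1` bits of `r` from the position `j (k+1)` on (a missing bit is `0`) -/
noncomputable def elt (B : Bases) (k : ℕ) (r : List Bool) (j : ℕ) : GaloisField 2 (k + 1) :=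
  ∑ c : Fin (k + 1), if r.getD (j * (k + 1) + c) false = true then B k c else 0

open Classical in
/-- The affine oracle of the family `f`. It answers the query `1ⁿ 0 1ᵏ 0 1ⁱ 0 r` with the
coordinate number `i` of the value, at the point of `GF(2^(k+1))ⁿ` written in the word `r`, of the
multilinear extension of the Boolean function `f n`. -/
noncomputable def affOracle (B : Bases) (f : Fam) : Oracle := fun w =>
  let n := lead w
  let k := lead (rest w)
  let i := lead (rest (rest w))
  let r := rest (rest (rest w))
  decide (∃ h : i < k + 1, (B k).repr (mle (f n) fun j => elt B k r j) ⟨i, h⟩ = 1)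

/-- The family with the functions `f m` in even arity `2m` (the last `m` variables are dummy
variables) and the constant `s m` in odd arity `2m+1`. -/
def addConst (f : Fam) (s : ℕ → Bool) : Fam := fun n v =>
  if n % 2 = 0 then f (n / 2) fun j => v ⟨j, by omega⟩ else s (n / 2)

end Pool.Agent.Helper6.Aff
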