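import Mathlib
import Pool.Agent.Helper6.Aff.Defs

set_option autoImplicit false

/-!
# Multilinear extensions: dummy variables, constants
-/

namespace Pool.Agent.Helper6.Aff

open Pool.Agent.Helper22

theorem mle_snoc {R : Type} [CommRing R] {n : ℕ} (f : (Fin n → Bool) → Bool)
    (x : Fin (n + 1) → R) :
    mle (fun v : Fin (n + 1) → Bool => f fun j => v j.castSucc) x = mle f fun j => x j.castSucc := by
  unfold mle
  rw [← (Fin.snocEquiv fun _ : Fin (n + 1) => Bool).sum_comp, Fintype.sum_prod_type,
    Fintype.sum_bool, ← Finset.sum_add_distrib]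
  refine Finset.sum_congr rfl fun v _ => ?_
  simp only [Fin.snocEquiv, Equiv.coe_fn_mk, Fin.snoc_castSucc, Fin.prod_univ_castSucc,
    Fin.snoc_last, if_true]
  by_cases h : f v = true
  · simp only [h, if_true]
    simp
    ring
  · simp [h]

theorem mle_dummy {R : Type} [CommRing R] {m : ℕ} (f : (Fin m → Bool) → Bool) (d : ℕ)
    (x : Fin (m + d) → R) :
    mle (fun v : Fin (m + d) → Bool => f fun j => v (Fin.castAdd d j)) x =
      mle f fun j => x (Fin.castAdd d j) := by
  induction d with
  | zero => rfl
  | succ d ih =>
    have h := mle_snoc (n := m + d) (fun v => f fun j => v (Fin.castAdd d j)) x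
    have h2 := ih fun j => x j.castSucc
    exact h.trans h2

theorem mle_const {R : Type} [CommRing R] {n : ℕ} (c : Bool) (x : Fin n → R) :
    mle (fun _ : Fin n → Bool => c) x = if c = true then 1 else 0 := by
  induction n with
  | zero => simp [mle]
  | succ n ih => exact (mle_snoc (fun _ => c) x).trans (ih _)

theorem mle_addConst_even {R : Type} [CommRing R] (f : Fam) (s : ℕ → Bool) {n m : ℕ}
    (h : n = 2 * m) (x : ℕ → R) :
    mle (addConst f s n) (fun j : Fin n => x j) = mle (f m) fun j : Fin m => x j := by
  obtain rfl : n = m + m := by omega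
  have h1 : addConst f s (m + m) = fun v : Fin (m + m) → Bool =>
      f m fun j => v (Fin.castAdd m j) := by
    funext v
    unfold addConst
    rw [if_pos (by omega)]
    have key : ∀ (k : ℕ) (_ : k = m) (h1 : ∀ j : Fin k, (j : ℕ) < m + m),
        f k (fun j => v ⟨j, h1 j⟩) = f m fun j => v (Fin.castAdd m j) := by
      rintro _ rfl _
      rfl
    exact key _ (by omega) _
  rw [h1, mle_dummy]
  rfl

theorem mle_addConst_odd {R : Type} [CommRing R] (f : Fam) (s : ℕ → Bool) {n m : ℕ}
    (h : n = 2 * m + 1) (x : Fin n → R) :
    mle (addConst f s n) x = if s m = true then 1 else 0 := by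
  subst h
  have h1 : addConst f s (2 * m + 1) = fun _ => s m := by
    funext v
    unfold addConst
    rw [if_neg (by omega)]
    congr 1
    omega
  rw [h1, mle_const]

end Pool.Agent.Helper6.Aff
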