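import Mathlib
import Pool.Agent.Helper6.Aff.Mle
import Pool.Agent.Helper22.OracleTools
import Pool.Agent.Helper49.Cons.Alt

set_option autoImplicit false

/-!
# Affine oracles and joins with tally oracles
-/

namespace Pool.Agent.Helper6.Aff

open N487b59b3 N68a2faeb N793a5b8e Pool.Agent.Helper22 Pool.Agent.Helper20.Cons
  Pool.Agent.Helper49.Cons

/-! ## The header functions -/

theorem takeWhile_un (m : ℕ) (u : List Bool) :
    (un m ++ false :: u).takeWhile id = un m := by
  induction m with
  | zero => rfl
  | succ m ih =>
    have : un (m + 1) = true :: un m := rfl
    rw [this, List.cons_append, List.takeWhile_cons_of_pos rfl, ih]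

theorem dropWhile_un (m : ℕ) (u : List Bool) :
    (un m ++ false :: u).dropWhile id = false :: u := by
  induction m with
  | zero => rfl
  | succ m ih =>
    have : un (m + 1) = true :: un m := rfl
    rw [this, List.cons_append, List.dropWhile_cons_of_pos rfl, ih]

@[simp] theorem lead_un (m : ℕ) (u : List Bool) : lead (un m ++ false :: u) = m := by
  rw [lead, takeWhile_un, un_length]

@[simp] theorem rest_un (m : ℕ) (u : List Bool) : rest (un m ++ false :: u) = u := by
  rw [rest, dropWhile_un]; rfl

theorem lead_un' (m : ℕ) : lead (un m) = m := by
  induction m with
  | zero => rfl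
  | succ m ih =>
    have : un (m + 1) = true :: un m := rfl
    rw [this, lead, List.takeWhile_cons_of_pos rfl, List.length_cons]
    exact congrArg (· + 1) ih

theorem rest_un' (m : ℕ) : rest (un m) = [] := by
  induction m with
  | zero => rfl
  | succ m ih =>
    have : un (m + 1) = true :: un m := rfl
    rw [this, rest, List.dropWhile_cons_of_pos rfl]
    exact ih

/-- the fold computing the leading `true`s -/
def leadStep (s : Bool × List Bool) (b : Bool) : Bool × List Bool :=
  if s.1 && b then (true, true :: s.2) else (false, s.2)

theorem leadStep_false (w : List Bool) (a : List Bool) :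
    w.foldl leadStep (false, a) = (false, a) := by
  induction w with
  | nil => rfl
  | cons b w ih => simpa [leadStep] using ih

theorem leadStep_fold (w : List Bool) (m : ℕ) :
    (w.foldl leadStep (true, un m)).2 = un (lead w + m) := by
  induction w generalizing m with
  | nil => simp [lead]
  | cons b w ih =>
    cases b with
    | false => simp [leadStep, leadStep_false, lead]
    | true =>
      have h1 : leadStep (true, un m) true = (true, un (m + 1)) := rfl
      rw [List.foldl_cons, h1, ih]
      congr 1
      simp only [lead, List.takeWhile_cons_of_pos (p := id) (a := true) rfl, List.length_cons]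
      omega

section

variable {α : Type} [N487b59b3 α]

@[fun_prop]
theorem FP.lead {f : α → List Bool} (hf : FP f) : FP fun a => un (lead (f a)) := by
  have h : FP fun p : List Bool × (Bool × List Bool) => p.1.foldl leadStep p.2 := by
    refine FP.foldl (g := leadStep) ?_ (B := fun n => 4 * n) (by fun_prop) ?_
    · unfold leadStep
      fun_prop
    · intro l a
      have h1 : (l.foldl leadStep a).2.length ≤ a.2.length + l.length := by
        induction l generalizing a with
        | nil => simp
        | cons b l ih =>
          refine (ih _).trans ?_
          have : (leadStep a b).2.length ≤ a.2.length + 1 := by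
            unfold leadStep
            split_ifs <;> simp
          simp only [List.length_cons]
          omega
      rcases hr : l.foldl leadStep a with ⟨c, d⟩
      rw [hr] at h1
      obtain ⟨a1, a2⟩ := a
      simp only [sz_pair, sz_bool, sz_bits] at *
      omega
  have h2 := (h.comp (hf.pair (FP.const (true, ([] : List Bool))))).snd'
  refine (congrArg FP (funext fun a => ?_)).mp h2
  exact leadStep_fold _ 0

theorem rest_eq_drop (w : List Bool) : rest w = w.drop (lead w + 1) := by
  induction w with
  | nil => rfl
  | cons b w ih =>
    cases b with
    | false => rfl
    | true =>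
      rw [rest, List.dropWhile_cons_of_pos rfl, lead, List.takeWhile_cons_of_pos rfl,
        List.length_cons, List.drop_succ_cons]
      exact ih

@[fun_prop]
theorem FP.rest {f : α → List Bool} (hf : FP f) : FP fun a => rest (f a) := by
  have h : FP fun a => (f a).drop (true :: un (Aff.lead (f a))).length := by fun_prop
  refine (congrArg FP (funext fun a => ?_)).mp h
  rw [rest_eq_drop, List.length_cons, un_length]

/-- the fold computing parity and half of the length -/
def halfStep (s : Bool × List Bool) (_ : Bool) : Bool × List Bool :=
  if s.1 then (false, true :: s.2) else (true, s.2)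

theorem half_fold (w : List Bool) (m : ℕ) :
    w.foldl halfStep (false, un m) = (decide (w.length % 2 = 1), un (w.length / 2 + m)) ∧
    w.foldl halfStep (true, un m) =
      (decide ((w.length + 1) % 2 = 1), un ((w.length + 1) / 2 + m)) := by
  induction w generalizing m with
  | nil => simp
  | cons b w ih =>
    constructor
    · have h1 : halfStep (false, un m) b = (true, un m) := rfl
      rw [List.foldl_cons, h1, (ih m).2, List.length_cons]
    · have h1 : halfStep (true, un m) b = (false, un (m + 1)) := rfl
      rw [List.foldl_cons, h1, (ih (m + 1)).1, List.length_cons]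
      congr 2
      · congr 1
        omega
      · omega

theorem FP.halfPair {f : α → List Bool} (hf : FP f) :
    FP fun a => (decide ((f a).length % 2 = 1), un ((f a).length / 2)) := by
  have h : FP fun p : List Bool × (Bool × List Bool) => p.1.foldl halfStep p.2 := by
    refine FP.foldl (g := halfStep) ?_ (B := fun n => 4 * n) (by fun_prop) ?_
    · unfold halfStep
      fun_prop
    · intro l a
      have h1 : (l.foldl halfStep a).2.length ≤ a.2.length + l.length := by
        induction l generalizing a with
        | nil => simp
        | cons b l ih =>
          refine (ih _).trans ?_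
          have : (halfStep a b).2.length ≤ a.2.length + 1 := by
            unfold halfStep
            split_ifs <;> simp
          simp only [List.length_cons]
          omega
      rcases hr : l.foldl halfStep a with ⟨c, d⟩
      rw [hr] at h1
      obtain ⟨a1, a2⟩ := a
      simp only [sz_pair, sz_bool, sz_bits] at *
      omega
  have h2 := h.comp (hf.pair (FP.const (false, ([] : List Bool))))
  refine (congrArg FP (funext fun a => ?_)).mp h2
  exact (half_fold _ 0).1

end

/-! ## The translations -/

/-- the tally oracle of a sequence of bits -/
def tallyOf (s : ℕ → Bool) : Oracle := fun q => allTrue q && s q.length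

/-- from queries to the affine oracle of `addConst f s` to queries to the join -/
def toJoin (w : List Bool) : List Bool :=
  if decide (lead w % 2 = 1) then
    (if (un (lead (rest (rest w)))).isEmpty then true :: un (lead w / 2) else [])
  else false :: (un (lead w / 2) ++ false :: rest w)

/-- from queries to the join to queries to the affine oracle of `addConst f s` -/
def fromJoin (w : List Bool) : List Bool :=
  if w.isEmpty then [false, false, true]
  else if w.headD false then
    (if allTrue w.tail then true :: (w.tail ++ w.tail) else [false, false, true])
  else un (lead w.tail) ++ (un (lead w.tail) ++ false :: rest w.tail)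

theorem toJoin_FP : FP toJoin := by
  have h1 : FP fun w : List Bool => (decide ((un (lead w)).length % 2 = 1),
      un ((un (lead w)).length / 2)) := FP.halfPair (by fun_prop)
  simp only [un_length] at h1
  have h2 : FP fun w : List Bool => decide (lead w % 2 = 1) := h1.fst'
  have h3 : FP fun w : List Bool => un (lead w / 2) := h1.snd'
  unfold toJoin
  refine FP.ite h2 ?_ ?_
  · exact FP.ite (by fun_prop) ((FP.const true).cons h3) (FP.const _)
  · exact (FP.const false).cons (h3.append ((FP.const false).cons (by fun_prop)))

theorem allTrue_FP : FP allTrue := by
  have h := FP.any_ctx (γ := List Bool) (β := Bool) (P := fun p : List Bool × Bool => !p.2)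
    (FP.not FP.snd)
  have h2 := (h.comp ((FP.const ([] : List Bool)).pair (FP.id (α := List Bool)))).not
  exact h2

theorem fromJoin_FP : FP fromJoin := by
  have h0 : FP fun w : List Bool => allTrue w.tail := allTrue_FP.comp (by fun_prop)
  have h1 : FP fun w : List Bool => w.headD false := FP.headD (by fun_prop) _
  unfold fromJoin
  refine FP.ite (by fun_prop) (by fun_prop) (FP.ite h1 (FP.ite h0 ?_ (by fun_prop)) ?_)
  · exact (FP.const true).cons (FP.append (by fun_prop) (by fun_prop))
  · exact FP.append (by fun_prop) (FP.append (by fun_prop) ((FP.const false).cons (by fun_prop)))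

/-- the value asked for by the query with the data `n`, `k`, `i`, `r` -/
def AffVal (B : Bases) (f : Fam) (n k i : ℕ) (r : List Bool) : Prop :=
  ∃ h : i < k + 1, (B k).repr (mle (f n) fun j => elt B k r j) ⟨i, h⟩ = 1

theorem affOracle_def (B : Bases) (f : Fam) (w : List Bool) :
    affOracle B f w = true ↔
      AffVal B f (lead w) (lead (rest w)) (lead (rest (rest w))) (rest (rest (rest w))) := by
  classical
  simp only [affOracle, decide_eq_true_eq, AffVal]

theorem affOracle_even (B : Bases) (f : Fam) (s : ℕ → Bool) (m : ℕ) (u : List Bool) :
    affOracle B (addConst f s) (un (2 * m) ++ false :: u) =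
      affOracle B f (un m ++ false :: u) := by
  rw [Bool.eq_iff_iff, affOracle_def, affOracle_def]
  simp only [lead_un, rest_un]
  unfold AffVal
  rw [mle_addConst_even f s rfl]

theorem affOracle_odd (B : Bases) (hB : ∀ k, B k 0 = 1) (f : Fam) (s : ℕ → Bool)
    (w : List Bool) {m : ℕ} (h : lead w = 2 * m + 1) :
    affOracle B (addConst f s) w = (decide (lead (rest (rest w)) = 0) && s m) := by
  rw [Bool.eq_iff_iff, affOracle_def, AffVal]
  rw [mle_addConst_odd f s h]
  have h1 : ∀ k, (B k).repr 1 = Finsupp.single 0 1 := fun k => by
    rw [← hB k, Module.Basis.repr_self]
  rcases Bool.eq_false_or_eq_true (s m) with h2 | h2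
  · rw [h2]
    simp only [if_true, h1, Bool.and_true, decide_eq_true_eq]
    constructor
    · rintro ⟨h3, h4⟩
      rw [Finsupp.single_apply] at h4
      split_ifs at h4 with h5
      · have := congrArg Fin.val h5
        simpa using this.symm
      · simp at h4
    · intro h3
      refine ⟨by omega, ?_⟩
      have h4 : (⟨lead (rest (rest w)), by omega⟩ : Fin (lead (rest w) + 1)) = 0 :=
        Fin.ext (by simpa using h3)
      rw [h4, Finsupp.single_eq_same]
  · rw [h2]
    simp

theorem split_word (w : List Bool) :
    w = un (lead w) ++ false :: rest w ∨ w = un (lead w) := by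
  induction w with
  | nil => right; rfl
  | cons b w ih =>
    cases b with
    | false => left; rfl
    | true =>
      have h1 : lead (true :: w) = lead w + 1 := by
        rw [lead, List.takeWhile_cons_of_pos rfl, List.length_cons]; rfl
      have h2 : rest (true :: w) = rest w := by
        rw [rest, List.dropWhile_cons_of_pos rfl]; rfl
      have h3 : un (lead w + 1) = true :: un (lead w) := rfl
      rw [h1, h2, h3]
      rcases ih with h | h
      · left
        rw [List.cons_append]
        exact congrArg _ h
      · right
        exact congrArg _ h

theorem affOracle_norm (B : Bases) (f : Fam) (w : List Bool) :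
    affOracle B f (un (lead w) ++ false :: rest w) = affOracle B f w := by
  rw [Bool.eq_iff_iff, affOracle_def, affOracle_def]
  simp only [lead_un, rest_un]

theorem affOracle_toJoin (B : Bases) (hB : ∀ k, B k 0 = 1) (f : Fam) (s : ℕ → Bool)
    (w : List Bool) :
    affOracle B (addConst f s) w = join (affOracle B f) (tallyOf s) (toJoin w) := by
  rcases Nat.mod_two_eq_zero_or_one (lead w) with h | h
  · have h1 : toJoin w = false :: (un (lead w / 2) ++ false :: rest w) := by
      rw [toJoin, if_neg]
      simp [h]
    rw [h1]
    have h2 := affOracle_even B f s (lead w / 2) (rest w)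
    have h3 : 2 * (lead w / 2) = lead w := by omega
    rw [h3, affOracle_norm] at h2
    exact h2
  · rw [affOracle_odd B hB f s w (m := lead w / 2) (by omega)]
    by_cases h0 : lead (rest (rest w)) = 0
    · have h1 : toJoin w = true :: un (lead w / 2) := by
        rw [toJoin, if_pos (by simp [h]), if_pos]
        rw [h0]; rfl
      rw [h1, decide_eq_true h0, Bool.true_and]
      change _ = tallyOf s _
      rw [tallyOf, un_length, (allTrue_iff _).2, Bool.true_and]
      intro b hb
      exact List.eq_of_mem_replicate hb
    · have h1 : toJoin w = [] := by
        rw [toJoin, if_pos (by simp [h]), if_neg]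
        cases hc : lead (rest (rest w)) with
        | zero => exact absurd hc h0
        | succ c => simp [un, List.replicate_succ]
      rw [h1, decide_eq_false h0, Bool.false_and]
      rfl

theorem affOracle_bad (B : Bases) (f : Fam) : affOracle B f [false, false, true] = false := by
  rw [Bool.eq_false_iff, Ne, affOracle_def]
  rintro ⟨h, -⟩
  revert h
  decide

theorem eq_un_of_allTrue {u : List Bool} (h : allTrue u = true) : u = un u.length :=
  List.eq_replicate_iff.2 ⟨rfl, (allTrue_iff u).1 h⟩

theorem join_fromJoin (B : Bases) (hB : ∀ k, B k 0 = 1) (f : Fam) (s : ℕ → Bool)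
    (w : List Bool) :
    join (affOracle B f) (tallyOf s) w = affOracle B (addConst f s) (fromJoin w) := by
  match w with
  | [] =>
    have h1 : fromJoin [] = [false, false, true] := rfl
    rw [h1, affOracle_bad]
    rfl
  | false :: u =>
    have h1 : fromJoin (false :: u) = un (2 * lead u) ++ false :: rest u := by
      have : fromJoin (false :: u) = un (lead u) ++ (un (lead u) ++ false :: rest u) := rfl
      rw [this, two_mul, un_add, List.append_assoc]
    rw [h1, affOracle_even, affOracle_norm]
    rfl
  | true :: u =>
    by_cases h : allTrue u = true
    · have h1 : fromJoin (true :: u) = un (2 * u.length + 1) := by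
        have h2 : fromJoin (true :: u) = true :: (u ++ u) := by
          simp [fromJoin, h]
        rw [h2]
        have h3 : un (2 * u.length + 1) = true :: un (2 * u.length) := rfl
        rw [h3, two_mul, un_add, ← eq_un_of_allTrue h]
      rw [h1, affOracle_odd B hB f s _ (m := u.length) (lead_un' _)]
      rw [rest_un']
      change tallyOf s u = _
      rw [tallyOf, h]
      rfl
    · have h1 : fromJoin (true :: u) = [false, false, true] := by
        simp [fromJoin, h]
      rw [h1, affOracle_bad]
      change tallyOf s u = _
      rw [tallyOf, Bool.eq_false_iff.2 h, Bool.false_and]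

end Pool.Agent.Helper6.Aff
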