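import Mathlib
import Pool.Agent.Helper6.Aff.Parse
import Pool.Agent.Helper8.Sip.Stage

set_option autoImplicit false

/-!
# An affine oracle with P ≠ NP ∩ coNP ≠ NP
-/

namespace Pool.Agent.Helper6.Aff

open N487b59b3 N68a2faeb N793a5b8e Pool.Agent.Helper22 Pool.Agent.Helper20.Cons
  Pool.Agent.Helper49.Cons Filter Topology

/-! ## Boolean points -/

theorem mle_bool {R : Type} [CommRing R] {n : ℕ} (f : (Fin n → Bool) → Bool)
    (v : Fin n → Bool) :
    mle f (fun j => if v j = true then (1 : R) else 0) = if f v = true then 1 else 0 := by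
  unfold mle
  rw [Finset.sum_eq_single v]
  · have h : (∏ i, if v i = true then (if v i = true then (1 : R) else 0)
        else 1 - if v i = true then (1 : R) else 0) = 1 :=
      Finset.prod_eq_one fun i _ => by
        by_cases h : v i = true <;> simp [h]
    rw [h]
  · intro u _ hu
    obtain ⟨i, hi⟩ : ∃ i, u i ≠ v i := by
      by_contra hc
      push Not at hc
      exact hu (funext hc)
    split_ifs with h
    · refine Finset.prod_eq_zero (Finset.mem_univ i) ?_
      rcases Bool.eq_false_or_eq_true (u i) with h1 | h1 <;>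
        rcases Bool.eq_false_or_eq_true (v i) with h2 | h2 <;> simp_all
    · rfl
  · intro h
    exact absurd (Finset.mem_univ v) h

/-- the Boolean point written in a word -/
def pt (n : ℕ) (w : List Bool) : Fin n → Bool := fun j => w.getD j false

theorem elt_bool (B : Bases) (hB : ∀ k, B k 0 = 1) (w : List Bool) (j : ℕ) :
    elt B 0 w j = if w.getD j false = true then 1 else 0 := by
  have h := hB 0
  simp only [elt, Fin.sum_univ_succ, Fin.sum_univ_zero]
  simp [h]

theorem affOracle_point (B : Bases) (hB : ∀ k, B k 0 = 1) (f : Fam) (n : ℕ) (w : List Bool) :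
    affOracle B f (un n ++ false :: false :: false :: w) = f n (pt n w) := by
  rw [Bool.eq_iff_iff, affOracle_def]
  have h1 : ∀ u : List Bool, lead (false :: u) = 0 := fun _ => rfl
  have h2 : ∀ u : List Bool, rest (false :: u) = u := fun _ => rfl
  simp only [lead_un, rest_un, h1, h2]
  have h3 : (fun j : Fin n => elt B 0 w j) =
      fun j => if pt n w j = true then 1 else 0 := by
    funext j
    rw [elt_bool B hB]
    rfl
  rw [AffVal, h3, mle_bool]
  have h4 : (B 0).repr 1 = Finsupp.single 0 1 := by
    rw [← hB 0, Module.Basis.repr_self]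
  by_cases h : f n (pt n w) = true
  · simp only [h, if_true, h4, iff_true]
    exact ⟨by omega, by simp⟩
  · simp [h]

/-! ## Linear algebra -/

/-- the coefficient of the extension asked for by the query `w`, as a linear functional -/
noncomputable def phi (B : Bases) (n : ℕ) (w : List Bool) :
    ((Fin n → Bool) → ZMod 2) →ₗ[ZMod 2] ZMod 2 :=
  if h : lead (rest (rest w)) < lead (rest w) + 1 then
    (Finsupp.lapply ⟨lead (rest (rest w)), h⟩) ∘ₗ (B (lead (rest w))).repr.toLinearMap ∘ₗ
      (Fintype.linearCombination (ZMod 2) fun v : Fin n → Bool =>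
        ∏ i : Fin n, (if v i = true then
          elt B (lead (rest w)) (rest (rest (rest w))) i
          else 1 - elt B (lead (rest w)) (rest (rest (rest w))) i))
  else 0

theorem affOracle_phi (B : Bases) (f : Fam) (w : List Bool) (a : (Fin (lead w) → Bool) → ZMod 2)
    (ha : ∀ v, a v = if f (lead w) v = true then 1 else 0)
    (h : phi B (lead w) w a = 0) : affOracle B f w = false := by
  rw [Bool.eq_false_iff, Ne, affOracle_def]
  rintro ⟨h1, h2⟩
  rw [phi, dif_pos h1] at h
  simp only [LinearMap.comp_apply, Fintype.linearCombination_apply, ha] at h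
  have h3 : (∑ v : Fin (lead w) → Bool, (if f (lead w) v = true then (1 : ZMod 2) else 0) •
      ∏ i : Fin (lead w), (if v i = true then
          elt B (lead (rest w)) (rest (rest (rest w))) i
          else 1 - elt B (lead (rest w)) (rest (rest (rest w))) i)) =
      mle (f (lead w)) fun j => elt B (lead (rest w)) (rest (rest (rest w))) j := by
    unfold mle
    refine Finset.sum_congr rfl fun v _ => ?_
    by_cases hv : f (lead w) v = true <;> simp [hv]
  rw [h3] at h
  have h4 : (B (lead (rest w))).repr (mle (f (lead w)) fun j => elt B (lead (rest w))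
      (rest (rest (rest w))) j) ⟨lead (rest (rest w)), h1⟩ = 0 := h
  rw [h2] at h4
  exact one_ne_zero h4

theorem exists_kernel (B : Bases) (n : ℕ) (H : Finset (Fin n → Bool)) (Q : List (List Bool))
    (hQ : Q.length + Hᶜ.card < 2 ^ n) :
    ∃ g : (Fin n → Bool) → Bool, (∃ v, g v = true) ∧ (∀ v, g v = true → v ∈ H) ∧
      ∀ w ∈ Q, lead w = n → ∀ f : Fam, f n = g → affOracle B f w = false := by
  classical
  let Φ : ((Fin n → Bool) → ZMod 2) →ₗ[ZMod 2] ((Fin Q.length ⊕ {v // v ∉ H}) → ZMod 2) :=
    LinearMap.pi fun s => Sum.elim (fun j => phi B n Q[j]) (fun v => LinearMap.proj v.1) s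
  have h1 : LinearMap.ker Φ ≠ ⊥ := by
    apply LinearMap.ker_ne_bot_of_finrank_lt
    rw [Module.finrank_fintype_fun_eq_card, Module.finrank_fintype_fun_eq_card,
      Fintype.card_sum, Fintype.card_fin]
    have h2 : Fintype.card {v // v ∉ H} = Hᶜ.card := by
      rw [Fintype.card_subtype]
      congr 1
      ext v
      simp
    rw [h2, Fintype.card_fun, Fintype.card_bool, Fintype.card_fin]
    exact hQ
  obtain ⟨a, ha, ha0⟩ := (Submodule.ne_bot_iff _).1 h1
  rw [LinearMap.mem_ker] at ha
  have hz : ∀ z : ZMod 2, z = 0 ∨ z = 1 := by decide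
  refine ⟨fun v => decide (a v = 1), ?_, ?_, ?_⟩
  · by_contra hc
    push Not at hc
    apply ha0
    funext v
    rcases hz (a v) with h | h
    · exact h
    · exact absurd (decide_eq_true h) (hc v)
  · intro v hv
    by_contra hvH
    have h2 : a v = 0 := congrFun ha (Sum.inr ⟨v, hvH⟩)
    rw [decide_eq_true_eq, h2] at hv
    exact zero_ne_one hv
  · intro w hw hn f hf
    subst hn
    obtain ⟨j, hj, rfl⟩ := List.mem_iff_getElem.1 hw
    refine affOracle_phi B f _ a (fun v => ?_) ?_
    · rw [hf]
      rcases hz (a v) with h | h <;> simp [h]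
    · exact congrFun ha (Sum.inl ⟨j, hj⟩)

end Pool.Agent.Helper6.Aff
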