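import Mathlib
import Pool.Agent.Helper6.Aff.Sep

set_option autoImplicit false

/-!
# The generic affine oracle
-/

namespace Pool.Agent.Helper6.Aff

open N487b59b3 N68a2faeb N793a5b8e Pool.Agent.Helper22 Pool.Agent.Helper20.Cons
  Pool.Agent.Helper49.Cons Filter Topology

/-- parameters of the families: a Boolean function and a bit for every arity -/
abbrev Par : Type := ∀ n : ℕ, ((Fin n → Bool) → Bool) × Bool

open Classical in
/-- in even arity, the function lives on the half cube `v 0 = a.2` and is not zero there -/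
noncomputable def gen1 (n : ℕ) (a : ((Fin n → Bool) → Bool) × Bool) (v : Fin n → Bool) : Bool :=
  if h : n % 2 = 0 ∧ 0 < n then
    decide (v ⟨0, h.2⟩ = a.2) &&
      (a.1 v || !decide (∃ v' : Fin n → Bool, v' ⟨0, h.2⟩ = a.2 ∧ a.1 v' = true))
  else a.1 v

/-- the family of a parameter -/
noncomputable def fam (c : Par) : Fam := fun n => gen1 n (c n)

theorem gen1_odd {n : ℕ} (h : n % 2 = 1) (a : ((Fin n → Bool) → Bool) × Bool) :
    gen1 n a = a.1 := by
  funext v
  rw [gen1, dif_neg (by omega)]

theorem gen1_even {n : ℕ} (h : n % 2 = 0) (h0 : 0 < n) (g : (Fin n → Bool) → Bool) (b : Bool)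
    (h1 : ∃ v, g v = true) (h2 : ∀ v, g v = true → v ⟨0, h0⟩ = b) : gen1 n (g, b) = g := by
  classical
  funext v
  rw [gen1, dif_pos ⟨h, h0⟩]
  have h3 : decide (∃ v' : Fin n → Bool, v' ⟨0, h0⟩ = b ∧ g v' = true) = true := by
    obtain ⟨v, hv⟩ := h1
    exact decide_eq_true ⟨v, h2 v hv, hv⟩
  simp only
  rw [h3]
  rcases Bool.eq_false_or_eq_true (g v) with h4 | h4
  · rw [h4, h2 v h4]; simp
  · rw [h4]; simp

theorem gen1_half {n : ℕ} (h : n % 2 = 0) (h0 : 0 < n) (a : ((Fin n → Bool) → Bool) × Bool) :
    (∃ v, v ⟨0, h0⟩ = a.2 ∧ gen1 n a v = true) ∧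
      ∀ v, gen1 n a v = true → v ⟨0, h0⟩ = a.2 := by
  classical
  constructor
  · by_cases h1 : ∃ v' : Fin n → Bool, v' ⟨0, h0⟩ = a.2 ∧ a.1 v' = true
    · obtain ⟨v, hv, hv'⟩ := h1
      refine ⟨v, hv, ?_⟩
      rw [gen1, dif_pos ⟨h, h0⟩, hv, hv']
      simp
    · refine ⟨fun _ => a.2, rfl, ?_⟩
      rw [gen1, dif_pos ⟨h, h0⟩, decide_eq_false h1]
      simp
  · intro v hv
    rw [gen1, dif_pos ⟨h, h0⟩, Bool.and_eq_true] at hv
    exact of_decide_eq_true hv.1

/-! ## Continuity -/

theorem affOracle_congr (B : Bases) {f g : Fam} {w : List Bool} (h : f (lead w) = g (lead w)) :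
    affOracle B f w = affOracle B g w := by
  rw [Bool.eq_iff_iff, affOracle_def, affOracle_def, AffVal, AffVal, h]

theorem continuous_aff (B : Bases) : Continuous fun c : Par => affOracle B (fam c) := by
  refine continuous_pi fun w => ?_
  let cs : Par := fun n => (fun _ => false, false)
  have h1 : (fun c : Par => affOracle B (fam c) w) =
      (fun a : ((Fin (lead w) → Bool) → Bool) × Bool =>
        affOracle B (fam (Function.update cs (lead w) a)) w) ∘ fun c => c (lead w) := by
    funext c
    simp only [Function.comp_apply]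
    apply affOracle_congr
    unfold fam
    rw [Function.update_self]
  rw [h1]
  exact continuous_of_discreteTopology.comp (continuous_apply _)

theorem dense_of {U : Set Par}
    (h : ∀ (c0 : Par) (N : ℕ), ∃ c ∈ U, ∀ n < N, c n = c0 n) : Dense U := by
  intro c0
  choose c hc hn using h c0
  refine mem_closure_of_tendsto (b := atTop) (f := c) ?_ (Eventually.of_forall hc)
  rw [tendsto_pi_nhds]
  intro n
  refine tendsto_const_nhds.congr' ?_
  filter_upwards [eventually_gt_atTop n] with N hN
  exact (hn N n hN).symm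

/-! ## Running a procedure on two oracles -/

section

variable {α β : Type} [N487b59b3 α] [N487b59b3 β]

/-- the queries asked -/
def asked (M : OracleProc α β) (X : Oracle) (a : α) : List (List Bool) :=
  (List.range (M.clock a).length).map fun j => M.query (a, M.answers X a j)

theorem run_congr' (M : OracleProc α β) {X Y : Oracle} (a : α)
    (h : ∀ q ∈ asked M X a, Y q = X q) : M.run Y a = M.run X a := by
  have key : ∀ n, n ≤ (M.clock a).length → M.answers Y a n = M.answers X a n := by
    intro n
    induction n with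
    | zero => intro _; rfl
    | succ n ih =>
      intro hn
      rw [OracleProc.answers, OracleProc.answers, ih (by omega)]
      congr 1
      refine h _ ?_
      rw [asked, List.mem_map]
      exact ⟨n, List.mem_range.2 (by omega), rfl⟩
  rw [OracleProc.run, OracleProc.run, key _ le_rfl]

theorem asked_length (M : OracleProc α β) (X : Oracle) (a : α) :
    (asked M X a).length = (M.clock a).length := by
  simp [asked]

theorem exists_clock_bound (M : OracleProc α β) : ∃ D, PB D ∧ Monotone D ∧
    ∀ a, (M.clock a).length ≤ D (sz a) := by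
  obtain ⟨D, hD, hm, hle⟩ := ((isPolyTime_iff _).1 M.clock_poly).bound
  refine ⟨D, hD, hm, fun a => ?_⟩
  have := hle a
  rw [sz_bits] at this
  omega

end

/-! ## The two requirements -/

theorem affOracle_zero (B : Bases) (f : Fam) (w : List Bool)
    (h : f (lead w) = fun _ => false) : affOracle B f w = false := by
  rw [Bool.eq_false_iff, Ne, affOracle_def, AffVal, h]
  rintro ⟨h1, h2⟩
  simp [mle] at h2

/-- the requirement for `NP ≠ coNP` -/
def U1 (B : Bases) (e : OracleProc (List Bool × List Bool) Bool × Polynomial ℕ) : Set Par :=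
  {c | ∃ x : List Bool, ¬ ((∀ v, fam c (2 * x.length + 1) v = false) ↔
    Accepts e.1 e.2 (affOracle B (fam c)) x)}

/-- the requirement for `P ≠ NP ∩ coNP` -/
def U2 (B : Bases) (M : OracleProc (List Bool) Bool) : Set Par :=
  {c | ∃ x : List Bool, M.run (affOracle B (fam c)) x ≠ (c (2 * x.length + 2)).2}

theorem eventually_coord (c0 : Par) (n : ℕ) : ∀ᶠ c in 𝓝 c0, c n = c0 n := by
  have h : Tendsto (fun c : Par => c n) (𝓝 c0) (𝓝 (c0 n)) := (continuous_apply n).tendsto c0
  rw [nhds_discrete (((Fin n → Bool) → Bool) × Bool), tendsto_pure] at h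
  exact h

theorem U1_open (B : Bases) (e : OracleProc (List Bool × List Bool) Bool × Polynomial ℕ) :
    IsOpen (U1 B e) := by
  rw [isOpen_iff_eventually]
  rintro c0 ⟨x, hx⟩
  have h1 := (continuous_aff B).tendsto c0 |>.eventually
    (eventually_accepts e.1 e.2 (affOracle B (fam c0)) x)
  filter_upwards [h1, eventually_coord c0 (2 * x.length + 1)] with c h2 h3
  refine ⟨x, ?_⟩
  rw [h2]
  have h4 : fam c (2 * x.length + 1) = fam c0 (2 * x.length + 1) := by
    unfold fam
    rw [h3]
  rw [h4]
  exact hx

theorem U2_open (B : Bases) (M : OracleProc (List Bool) Bool) : IsOpen (U2 B M) := by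
  rw [isOpen_iff_eventually]
  rintro c0 ⟨x, hx⟩
  have h1 := (continuous_aff B).tendsto c0 |>.eventually
    (eventually_run M (affOracle B (fam c0)) x)
  filter_upwards [h1, eventually_coord c0 (2 * x.length + 2)] with c h2 h3
  refine ⟨x, ?_⟩
  rw [h2, h3]
  exact hx

theorem U1_dense (B : Bases) (e : OracleProc (List Bool × List Bool) Bool × Polynomial ℕ) :
    Dense (U1 B e) := by
  obtain ⟨M, p⟩ := e
  refine dense_of fun c0 N => ?_
  obtain ⟨D, hD, hDm, hle⟩ := exists_clock_bound M
  obtain ⟨m, hm, hlt⟩ := Pool.Agent.Helper8.Sip.exists_lt_two_pow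
    (q := fun m => D (6 * m + 1 + 3 * p.eval m))
    (hD.comp (((PB.const 6).mul PB.id |>.add (PB.const 1)).add ((PB.const 3).mul (PB.poly p)))) N
  set n := 2 * m + 1 with hn
  have hnm : (un m).length = m := by simp
  let c1 : Par := Function.update c0 n (fun _ => false, (c0 n).2)
  have hc1 : fam c1 n = fun _ => false := by
    unfold fam
    rw [gen1_odd (by omega)]
    simp [c1]
  by_cases hacc : Accepts M p (affOracle B (fam c1)) (un m)
  · obtain ⟨w, hw, hrun⟩ := hacc
    rw [hnm] at hw
    have hlen : (asked M (affOracle B (fam c1)) (un m, w)).length + (Finset.univᶜ :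
        Finset (Fin n → Bool)).card < 2 ^ n := by
      rw [Finset.compl_univ, Finset.card_empty, add_zero, asked_length]
      have h1 := hle (un m, w)
      rw [sz_pair, sz_bits, sz_bits, hnm] at h1
      have h2 : D (2 * (3 * m) + 1 + 3 * w.length) ≤ D (6 * m + 1 + 3 * p.eval m) :=
        hDm (by omega)
      have h3 : 2 ^ m ≤ 2 ^ n := Nat.pow_le_pow_right (by norm_num) (by omega)
      omega
    obtain ⟨g, hg1, -, hg2⟩ := exists_kernel B n Finset.univ _ hlen
    refine ⟨Function.update c0 n (g, (c0 n).2), ⟨un m, ?_⟩, fun j hj => ?_⟩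
    · set c2 : Par := Function.update c0 n (g, (c0 n).2) with hc2d
      have hc2 : fam c2 n = g := by
        unfold fam
        rw [gen1_odd (by omega), hc2d, Function.update_self]
      have hoth : ∀ j, j ≠ n → fam c2 j = fam c1 j := by
        intro j hj
        have h1 : c2 j = c0 j := Function.update_of_ne hj _ _
        have h2 : c1 j = c0 j := Function.update_of_ne hj _ _
        unfold fam
        rw [h1, h2]
      have hrun2 : M.run (affOracle B (fam c2)) (un m, w) = true := by
        rw [← hrun]
        refine run_congr' M _ fun q hq => ?_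
        by_cases hqn : lead q = n
        · rw [hg2 q hq hqn _ hc2, affOracle_zero]
          rw [hqn, hc1]
        · exact affOracle_congr B (hoth _ hqn)
      intro hcon
      have h1 : Accepts M p (affOracle B (fam c2)) (un m) :=
        ⟨w, by rw [hnm]; exact hw, hrun2⟩
      have h2 := hcon.2 h1
      have h4 : ∀ k, k = n → ¬ ∀ v : Fin k → Bool, fam c2 k v = false := by
        rintro _ rfl h5
        obtain ⟨v, hv⟩ := hg1
        have h3 := h5 v
        rw [hc2, hv] at h3
        exact Bool.noConfusion h3
      exact h4 _ (by rw [hnm]) h2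
    · rw [Function.update_of_ne (by omega)]
  · refine ⟨c1, ⟨un m, fun hcon => hacc (hcon.1 ?_)⟩, fun j hj => ?_⟩
    · intro v
      have h4 : ∀ k, k = n → ∀ v : Fin k → Bool, fam c1 k v = false := by
        rintro _ rfl v
        rw [hc1]
      exact h4 _ (by rw [hnm]) v
    · exact Function.update_of_ne (by omega) _ _

theorem card_half {m : ℕ} (b : Bool) :
    ({v : Fin (m + 1) → Bool | v 0 = b} : Finset (Fin (m + 1) → Bool)).card ≤ 2 ^ m := by
  have h : (Finset.univ : Finset (Fin m → Bool)).card = 2 ^ m := by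
    simp
  rw [← h]
  refine Finset.card_le_card_of_injOn (fun v => fun i => v i.succ) (fun _ _ => Finset.mem_univ _) ?_
  intro v hv u hu huv
  simp only [Finset.coe_filter, Finset.mem_univ, true_and, Set.mem_ofPred_eq] at hv hu
  funext i
  refine Fin.cases ?_ (fun i => congrFun huv i) i
  rw [hv, hu]

theorem U2_dense (B : Bases) (M : OracleProc (List Bool) Bool) : Dense (U2 B M) := by
  refine dense_of fun c0 N => ?_
  obtain ⟨D, hD, hDm, hle⟩ := exists_clock_bound M
  obtain ⟨m, hm, hlt⟩ := Pool.Agent.Helper8.Sip.exists_lt_two_pow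
    (q := fun m => D (3 * m)) (hD.comp ((PB.const 3).mul PB.id)) N
  have hnm : (un m).length = m := by simp
  let fz : Fam := Function.update (fam c0) (2 * m + 2) (fun _ => false)
  set b := !(M.run (affOracle B fz) (un m)) with hb
  let H : Finset (Fin (2 * m + 1 + 1) → Bool) := {v | v 0 = b}
  have hH : Hᶜ.card ≤ 2 ^ (2 * m + 1) := by
    refine le_trans (Finset.card_le_card ?_) (card_half (m := 2 * m + 1) (!b))
    intro v hv
    simp only [H, Finset.mem_compl, Finset.mem_filter, Finset.mem_univ, true_and] at hv ⊢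
    revert hv
    cases v 0 <;> cases b <;> simp
  have hlen : (asked M (affOracle B fz) (un m)).length + Hᶜ.card < 2 ^ (2 * m + 1 + 1) := by
    rw [asked_length]
    have h1 := hle (un m)
    rw [sz_bits, hnm] at h1
    have h3 : 2 ^ m ≤ 2 ^ (2 * m + 1) := Nat.pow_le_pow_right (by norm_num) (by omega)
    rw [pow_succ (n := 2 * m + 1)]
    omega
  obtain ⟨g, hg1, hg3, hg2⟩ := exists_kernel B (2 * m + 1 + 1) H _ hlen
  refine ⟨Function.update c0 (2 * m + 2) (g, b), ⟨un m, ?_⟩, fun j hj => ?_⟩
  · set c2 : Par := Function.update c0 (2 * m + 2) (g, b) with hc2d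
    have hc2 : fam c2 (2 * m + 2) = g := by
      unfold fam
      simp only [c2, Function.update_self]
      refine gen1_even (by omega) (by omega) g b hg1 fun v hv => ?_
      have := hg3 v hv
      simp only [H, Finset.mem_filter, Finset.mem_univ, true_and] at this
      exact this
    have hrun2 : M.run (affOracle B (fam c2)) (un m) = M.run (affOracle B fz) (un m) := by
      refine run_congr' M _ fun q hq => ?_
      by_cases hqn : lead q = 2 * m + 2
      · rw [hg2 q hq hqn _ hc2, affOracle_zero]
        rw [hqn]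
        simp [fz]
      · refine affOracle_congr B ?_
        have h1 : fz (lead q) = fam c0 (lead q) := Function.update_of_ne hqn _ _
        rw [h1]
        have h2 : c2 (lead q) = c0 (lead q) := Function.update_of_ne hqn _ _
        unfold fam
        rw [h2]
    have h4 : ∀ k, k = 2 * m + 2 → (c2 k).2 = b := by
      rintro _ rfl
      rw [hc2d, Function.update_self]
    rw [hrun2, h4 _ (by rw [hnm]), hb]
    cases M.run (affOracle B fz) (un m) <;> simp
  · rw [Function.update_of_ne (by omega)]

theorem exists_generic (B : Bases) : ∃ c : Par, (∀ e, c ∈ U1 B e) ∧ ∀ M, c ∈ U2 B M := by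
  have h1 : Dense (⋂ e, U1 B e) := dense_iInter_of_isOpen (fun e => U1_open B e) (U1_dense B)
  have h2 : Dense (⋂ M, U2 B M) := dense_iInter_of_isOpen (fun M => U2_open B M) (U2_dense B)
  have h3 : Dense ((⋂ e, U1 B e) ∩ ⋂ M, U2 B M) := by
    refine Dense.inter_of_Gδ ?_ ?_ h1 h2
    · exact .iInter_of_isOpen (fun e => U1_open B e)
    · exact .iInter_of_isOpen (fun M => U2_open B M)
  obtain ⟨c, hc1, hc2⟩ := h3.nonempty
  exact ⟨c, fun e => Set.mem_iInter.1 hc1 e, fun M => Set.mem_iInter.1 hc2 M⟩

end Pool.Agent.Helper6.Aff
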