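import Mathlib
import Pool.Agent.Helper22.OracleDefs
import Pool.Agent.Helper22.Cons.Univ
import Pool.Agent.Helper20.Cons.Defs
import Pool.Agent.Helper20.Cons.Rec
import Pool.Agent.Helper20.Cons.G
import Pool.Agent.Helper49.Cons.AccDefs
import Pool.Agent.Helper49.Cons.Alt
import Pool.Agent.Helper49.Cons.Trans
import Pool.Agent.Helper21.Off.Esy
import Pool.Agent.Helper8.Sip.OffAll

set_option autoImplicit false

/-!
# The two switches (ConservativeTally and OffSwitch), in the form needed here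
-/

namespace Pool.Agent.Helper6.Aff

open N68a2faeb N793a5b8e N487b59b3 Pool.Agent.Helper22 Pool.Agent.Helper20.Cons
  Pool.Agent.Helper49.Cons

theorem on_switch (A : Oracle) {ι κ : Type} [Countable ι] [Countable κ] (Φ : ι → Acc)
    (Ψ : κ → Oracle → List Bool → Option Bool) (hΨ : ∀ e, LocConst (Ψ e))
    (BB : Set (List Bool → Option Bool)) (hBB : BB.Countable) :
    ∃ T : Oracle, Tally T ∧
      (∃ L ∈ NPo (join A T) ∩ coNPo (join A T), ∀ L' ∈ NPo (join A T) ∩ coNPo (join A T),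
        ManyOneReducible L' L) ∧
      (∀ e, Ψ e (join A T) ∈ BB → ∃ Q : Oracle, Tally Q ∧ Q ∈ P ∧
        Ψ e (join A Q) = Ψ e (join A T)) ∧
      (∀ i j, Cls (Φ i) (join A T) ⊆ Cls (Φ j) (join A T) → Cls (Φ i) A ⊆ Cls (Φ j) A) ∧
      (∀ i j, (Φ i).Syntactic → Cls (Φ i) A ⊆ Cls (Φ j) A →
        Cls (Φ i) (join A T) ⊆ Cls (Φ j) (join A T)) ∧
      (∀ k b k' b', AltP (join A T) k b ⊆ AltP (join A T) k' b' ↔
        AltP A k b ⊆ AltP A k' b') := by
  let Φ' : ι ⊕ (ℕ × Bool) → Acc := Sum.elim Φ fun c => accAlt c.1 c.2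
  obtain ⟨T, l, hT, hbit, h1, h2, h3⟩ := exists_tally_all A Φ' Ψ hΨ BB hBB
  have hPH : ∀ k b k' b', AltP (join A T) k b ⊆ AltP (join A T) k' b' ↔
      AltP A k b ⊆ AltP A k' b' := by
    intro k b k' b'
    simp only [← cls_accAlt]
    exact ⟨h2 (.inr (k, b)) (.inr (k', b')), h3 (.inr (k, b)) (.inr (k', b'))
      (accAlt_syntactic k b)⟩
  exact ⟨T, hT, ConsUniv.univ_complete A T l hbit, h1, fun i j => h2 (.inl i) (.inl j),
    fun i j => h3 (.inl i) (.inl j), hPH⟩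

theorem off_switch (A : Oracle) (hA : NPo A ≠ coNPo A) {ι κ : Type} [Countable ι] [Countable κ]
    (Φ : ι → Acc) (Ψ : κ → Oracle → List Bool → Option Bool) (hΨ : ∀ e, LocConst (Ψ e))
    (BB : Set (List Bool → Option Bool)) (hBB : BB.Countable) :
    ∃ T : Oracle, Tally T ∧
      (¬ ∃ L ∈ NPo (join A T) ∩ coNPo (join A T), ∀ L' ∈ NPo (join A T) ∩ coNPo (join A T),
        ReducibleRel (join A T) L' L) ∧
      (∀ i j, Cls (Φ i) (join A T) ⊆ Cls (Φ j) (join A T) → Cls (Φ i) A ⊆ Cls (Φ j) A) ∧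
      (∀ i j, (Φ i).Syntactic → Cls (Φ i) A ⊆ Cls (Φ j) A →
        Cls (Φ i) (join A T) ⊆ Cls (Φ j) (join A T)) ∧
      (∀ k b k' b', AltP (join A T) k b ⊆ AltP (join A T) k' b' ↔
        AltP A k b ⊆ AltP A k' b') := by
  obtain ⟨Y, Z, hY, hZ, hE⟩ := Pool.Agent.Helper21.Off.esy A hA
  obtain ⟨T, hT, hno, hcons, hdown, hup⟩ := Pool.Agent.Helper8.Sip.off_all A Y Z hY hZ hE
    (ι := ι ⊕ (ℕ × Bool)) (Sum.elim Φ fun c => accAlt c.1 c.2) Ψ hΨ BB hBB
  have hPH : ∀ k b k' b', AltP (join A T) k b ⊆ AltP (join A T) k' b' ↔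
      AltP A k b ⊆ AltP A k' b' := by
    intro k b k' b'
    simp only [← cls_accAlt]
    exact ⟨hdown (.inr (k, b)) (.inr (k', b')), hup (.inr (k, b)) (.inr (k', b'))
      (accAlt_syntactic k b)⟩
  exact ⟨T, hT, fun h => hno h, fun i j => hdown (.inl i) (.inl j),
    fun i j => hup (.inl i) (.inl j), hPH⟩

end Pool.Agent.Helper6.Aff
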