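import Mathlib
import Pool.Agent.Helper22.OracleTools
import Pool.Agent.Helper49.Cons.Alt

set_option autoImplicit false

/-!
# Many-one equivalent oracles define the same classes
-/

namespace Pool.Agent.Helper6.Aff

open N487b59b3 N68a2faeb N793a5b8e Pool.Agent.Helper22 Pool.Agent.Helper20.Cons
  Pool.Agent.Helper49.Cons

section

variable {α β : Type} [N487b59b3 α] [N487b59b3 β]

/-- the procedure whose queries are translated by `h` -/
def via (M : OracleProc α β) (h : List Bool → List Bool) (hh : FP h) : OracleProc α β where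
  clock := M.clock
  query := fun s => h (M.query s)
  out := M.out
  clock_poly := M.clock_poly
  query_poly := (isPolyTime_iff _).2 (hh.comp ((isPolyTime_iff _).1 M.query_poly))
  out_poly := M.out_poly

theorem via_run (M : OracleProc α β) (h : List Bool → List Bool) (hh : FP h) {X Y : Oracle}
    (hX : ∀ q, Y q = X (h q)) (a : α) : (via M h hh).run X a = M.run Y a := by
  have h1 : ∀ n, (via M h hh).answers X a n = M.answers Y a n := by
    intro n
    induction n with
    | zero => rfl
    | succ n ih =>
      rw [OracleProc.answers, OracleProc.answers, ih, hX]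
      rfl
  rw [OracleProc.run, OracleProc.run, h1]
  rfl

end

/-- `Y` is many-one reducible to `X` -/
def MRed (Y X : Oracle) : Prop := ∃ h : List Bool → List Bool, FP h ∧ ∀ q, Y q = X (h q)

theorem MRed.cls {X Y : Oracle} (hr : MRed Y X) (Φ : Acc) : Cls Φ Y ⊆ Cls Φ X := by
  obtain ⟨h, hh, hX⟩ := hr
  rintro L ⟨g, M, hL⟩
  refine ⟨via g h hh, via M h hh, fun x => ?_⟩
  rw [← hL x, verdict, verdict, via_run g h hh hX]
  simp only [via_run M h hh hX]

theorem MRed.reducible {X Y : Oracle} (hr : MRed Y X) {A B : DecisionProblem}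
    (hAB : ReducibleRel Y A B) : ReducibleRel X A B := by
  obtain ⟨h, hh, hX⟩ := hr
  obtain ⟨f, hf⟩ := hAB
  exact ⟨via f h hh, fun x => by rw [hf x, via_run f h hh hX]⟩

section

variable {X Y : Oracle} (h1 : MRed X Y) (h2 : MRed Y X)

include h1 h2

theorem cls_eq (Φ : Acc) : Cls Φ X = Cls Φ Y := Set.Subset.antisymm (h1.cls Φ) (h2.cls Φ)

theorem altP_eq (k : ℕ) (b : Bool) : AltP X k b = AltP Y k b := by
  rw [← cls_accAlt, ← cls_accAlt, cls_eq h1 h2]

theorem NPo_eq : NPo X = NPo Y := by rw [← AltP_one, ← AltP_one, altP_eq h1 h2]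

theorem coNPo_eq : coNPo X = coNPo Y := by rw [← AltP_one', ← AltP_one', altP_eq h1 h2]

theorem Po_eq : Po X = Po Y := by rw [← AltP_zero _ true, ← AltP_zero _ true, altP_eq h1 h2]

end

end Pool.Agent.Helper6.Aff
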