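import Mathlib
import Pool.Agent.Helper6.Aff.Gen
import Pool.Agent.Helper6.Aff.Via
import Pool.Agent.Helper20.Cons.G
import Pool.Agent.Helper6.Aff.OnOff

set_option autoImplicit false

/-!
# Assembly
-/

namespace Pool.Agent.Helper6.Aff

open N487b59b3 N68a2faeb N793a5b8e Pool.Agent.Helper22 Pool.Agent.Helper20.Cons
  Pool.Agent.Helper49.Cons Filter Topology

/-! ## Joins with tally oracles are affine -/

theorem mred_toJoin (B : Bases) (hB : ∀ k, B k 0 = 1) (f : Fam) (s : ℕ → Bool) :
    MRed (affOracle B (addConst f s)) (join (affOracle B f) (tallyOf s)) :=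
  ⟨toJoin, toJoin_FP, affOracle_toJoin B hB f s⟩

theorem mred_fromJoin (B : Bases) (hB : ∀ k, B k 0 = 1) (f : Fam) (s : ℕ → Bool) :
    MRed (join (affOracle B f) (tallyOf s)) (affOracle B (addConst f s)) :=
  ⟨fromJoin, fromJoin_FP, join_fromJoin B hB f s⟩

theorem tally_eq {T : Oracle} (hT : Tally T) : T = tallyOf fun n => T (un n) := by
  funext q
  rw [tallyOf]
  by_cases h : allTrue q = true
  · rw [h, Bool.true_and, ← eq_un_of_allTrue h]
  · rw [Bool.eq_false_iff.2 h, Bool.false_and, Bool.eq_false_iff]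
    intro h1
    exact h ((allTrue_iff q).2 (hT q h1))

theorem tally_tallyOf (s : ℕ → Bool) : Tally (tallyOf s) := by
  intro q hq
  rw [tallyOf, Bool.and_eq_true] at hq
  exact (allTrue_iff q).1 hq.1

/-! ## The languages of the generic affine oracle -/

/-- ask for the value of the function of arity `2|x| + d` at the Boolean point `w` -/
def askPt (d : ℕ) (t : List Bool → Bool) (ht : FP t) :
    OracleProc (List Bool × List Bool) Bool where
  clock := fun _ => [true]
  query := fun a => (un a.1.1.length ++ (un a.1.1.length ++ un d)) ++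
    false :: false :: false :: a.1.2
  out := fun a => a.2.headD false && t a.1.2
  clock_poly := (isPolyTime_iff _).2 (FP.const _)
  query_poly := (isPolyTime_iff _).2 (by fun_prop)
  out_poly := (isPolyTime_iff _).2 ((FP.headD (by fun_prop) _).and (ht.comp (by fun_prop)))

theorem askPt_run (B : Bases) (hB : ∀ k, B k 0 = 1) (f : Fam) (d : ℕ) (t : List Bool → Bool)
    (ht : FP t) (x w : List Bool) :
    (askPt d t ht).run (affOracle B f) (x, w) =
      (f (2 * x.length + d) (pt (2 * x.length + d) w) && t w) := by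
  have h1 : un x.length ++ (un x.length ++ un d) = un (2 * x.length + d) := by
    rw [← un_add, ← un_add]
    congr 1
    ring
  have h2 := affOracle_point B hB f (2 * x.length + d) w
  rw [← h1] at h2
  rw [← h2]
  rfl

/-- the language of the functions of arity `2|x| + d` which do not vanish on the part of the cube
given by `t` -/
theorem mem_NPo (B : Bases) (hB : ∀ k, B k 0 = 1) (f : Fam) (d : ℕ) (t : List Bool → Bool)
    (ht : FP t) (L : DecisionProblem)
    (hL : ∀ x, L x = true ↔ ∃ w : List Bool, w.length ≤ 2 * x.length + d ∧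
      f (2 * x.length + d) (pt (2 * x.length + d) w) = true ∧ t w = true) :
    L ∈ NPo (affOracle B f) := by
  refine ⟨2 * Polynomial.X + Polynomial.C d, askPt d t ht, fun x => ?_⟩
  rw [hL, Accepts]
  simp only [askPt_run B hB, Bool.and_eq_true]
  simp

theorem exists_word {n : ℕ} (v : Fin n → Bool) :
    ∃ w : List Bool, w.length = n ∧ pt n w = v := by
  refine ⟨List.ofFn v, by simp, ?_⟩
  funext j
  simp [pt]

theorem exists_pt_iff {n : ℕ} (g : (Fin n → Bool) → Bool) :
    (∃ w : List Bool, w.length ≤ n ∧ g (pt n w) = true ∧ true = true) ↔ ∃ v, g v = true := by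
  constructor
  · rintro ⟨w, -, hw, -⟩
    exact ⟨_, hw⟩
  · rintro ⟨v, hv⟩
    obtain ⟨w, hw, hw'⟩ := exists_word v
    exact ⟨w, hw.le, by rw [hw']; exact hv, rfl⟩

theorem headD_pt {n : ℕ} (h : 0 < n) (w : List Bool) : w.headD false = pt n w ⟨0, h⟩ := by
  cases w <;> rfl

theorem exists_pt_half {n : ℕ} (h : 0 < n) (g : (Fin n → Bool) → Bool) (b : Bool) :
    (∃ w : List Bool, w.length ≤ n ∧ g (pt n w) = true ∧ (w.headD false == b) = true) ↔
      ∃ v, v ⟨0, h⟩ = b ∧ g v = true := by
  constructor
  · rintro ⟨w, -, hw, hb⟩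
    rw [headD_pt h, beq_iff_eq] at hb
    exact ⟨_, hb, hw⟩
  · rintro ⟨v, hb, hv⟩
    obtain ⟨w, hw, hw'⟩ := exists_word v
    refine ⟨w, hw.le, by rw [hw']; exact hv, ?_⟩
    rw [headD_pt h, hw', hb]
    simp

/-- the generic affine oracle: `NP ≠ coNP`, and a language in `NP ∩ coNP` but not in `P` -/
theorem exists_affine_sep (B : Bases) (hB : ∀ k, B k 0 = 1) :
    ∃ f : Fam, NPo (affOracle B f) ≠ coNPo (affOracle B f) ∧
      ∃ L ∈ NPo (affOracle B f) ∩ coNPo (affOracle B f), L ∉ Po (affOracle B f) := by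
  classical
  obtain ⟨c, h1, h2⟩ := exists_generic B
  refine ⟨fam c, ?_, ?_⟩
  · let L1 : DecisionProblem := fun x =>
      decide (∃ v, fam c (2 * x.length + 1) v = true)
    have hL1 : L1 ∈ NPo (affOracle B (fam c)) := by
      refine mem_NPo B hB (fam c) 1 (fun _ => true) (FP.const true) L1 fun x => ?_
      rw [exists_pt_iff, decide_eq_true_eq]
    intro heq
    rw [heq] at hL1
    obtain ⟨p, M, hM⟩ := hL1
    obtain ⟨x, hx⟩ := h1 (M, p)
    apply hx
    rw [← hM x, compl_true]
    simp [L1]
  · let L2 : DecisionProblem := fun x => (c (2 * x.length + 2)).2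
    have hhalf : ∀ x : List Bool, ∀ b : Bool, (c (2 * x.length + 2)).2 = b ↔
        ∃ v : Fin (2 * x.length + 2) → Bool, v ⟨0, by omega⟩ = b ∧
          fam c (2 * x.length + 2) v = true := by
      intro x b
      obtain ⟨⟨v, hv, hv'⟩, h4⟩ := gen1_half (n := 2 * x.length + 2) (by omega) (by omega)
        (c (2 * x.length + 2))
      constructor
      · rintro rfl
        exact ⟨v, hv, hv'⟩
      · rintro ⟨u, hu, hu'⟩
        rw [← hu]
        exact (h4 u hu').symm
    refine ⟨L2, ⟨?_, ?_⟩, ?_⟩
    · refine mem_NPo B hB (fam c) 2 (fun w => w.headD false == true)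
        (FP.beq (FP.headD (by fun_prop) _) (FP.const true)) L2 fun x => ?_
      rw [exists_pt_half (by omega), ← hhalf]
    · refine mem_NPo B hB (fam c) 2 (fun w => w.headD false == false)
        (FP.beq (FP.headD (by fun_prop) _) (FP.const false)) L2ᶜ fun x => ?_
      rw [exists_pt_half (by omega), ← hhalf, compl_true]
      simp [L2]
    · rintro ⟨M, hM⟩
      obtain ⟨x, hx⟩ := h2 M
      exact hx (hM x).symm

end Pool.Agent.Helper6.Aff
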